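import Pool.Agent.H69.CY.Main
import Pool.Agent.H6.Dens

/-!
Cyclic numbers have density zero, so the violations are `o(x / log x)` up to `x`.
-/

set_option autoImplicit false

namespace Pool.Agent.H69.CY

open Real Filter Topology

/-- integers without prime factors from a finite set of primes -/
theorem rough {ε : ℝ} (hε : 0 < ε) : ∃ F : Finset ℕ, (∀ p ∈ F, p.Prime) ∧ ∃ N0 : ℕ, ∀ N : ℕ, N0 ≤ N →
    (((Finset.range N).filter (fun n => ∀ p ∈ F, ¬ p ∣ n)).card : ℝ) ≤ ε * N := by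
  classical
  have hbig : ∀ B : ℝ, ∃ F : Finset ℕ, (∀ p ∈ F, p.Prime) ∧ B ≤ ∑ p ∈ F, (1:ℝ) / p := by
    intro B
    by_contra hcon
    push Not at hcon
    apply not_summable_one_div_on_primes
    apply summable_of_sum_le (fun n => Set.indicator_nonneg (fun n _ => by positivity) n) (c := B)
    intro u
    have h1 : ∑ i ∈ u, Set.indicator {p | p.Prime} (fun n : ℕ => (1 : ℝ) / n) i =
        ∑ i ∈ u.filter Nat.Prime, (1:ℝ) / i := by
      rw [Finset.sum_filter]
      apply Finset.sum_congr rfl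
      intro i _
      by_cases h : i.Prime
      · rw [Set.indicator_of_mem (show i ∈ {p | Nat.Prime p} from h), if_pos h]
      · rw [Set.indicator_of_notMem (show i ∉ {p | Nat.Prime p} from h), if_neg h]
    rw [h1]
    exact (hcon (u.filter Nat.Prime) (fun p hp => (Finset.mem_filter.mp hp).2)).le
  obtain ⟨F, hFp, hF⟩ := hbig (-Real.log (ε / 3))
  set P : ℕ := ∏ p ∈ F, p with hP
  have hPpos : 0 < P := Finset.prod_pos (fun p hp => (hFp p hp).pos)
  have hPF : P.primeFactors = F := Nat.primeFactors_prod hFp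
  have htot : (P.totient : ℝ) ≤ P * (ε / 3) := by
    have h1 : (P.totient : ℚ) = P * ∏ p ∈ P.primeFactors, (1 - (p : ℚ)⁻¹) :=
      Nat.totient_eq_mul_prod_factors P
    have h2 : (P.totient : ℝ) = P * ∏ p ∈ F, (1 - (p : ℝ)⁻¹) := by
      rw [hPF] at h1
      have h3 : ((P.totient : ℚ) : ℝ) = ((P * ∏ p ∈ F, (1 - (p : ℚ)⁻¹) : ℚ) : ℝ) := by rw [h1]
      push_cast at h3
      exact h3
    rw [h2]
    apply mul_le_mul_of_nonneg_left _ (Nat.cast_nonneg P)
    have h3 : ∏ p ∈ F, (1 - (p : ℝ)⁻¹) ≤ ∏ p ∈ F, Real.exp (-(1 / (p:ℝ))) := by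
      apply Finset.prod_le_prod
      · intro p hp
        have : (1:ℝ) ≤ p := by exact_mod_cast (hFp p hp).one_lt.le
        have : (p:ℝ)⁻¹ ≤ 1 := inv_le_one_of_one_le₀ this
        linarith
      · intro p _
        have := Real.add_one_le_exp (-(1 / (p:ℝ)))
        rw [one_div] at this ⊢
        linarith
    rw [← Real.exp_sum] at h3
    refine h3.trans ?_
    rw [Finset.sum_neg_distrib]
    have h4 : Real.exp (-∑ p ∈ F, 1 / (p:ℝ)) ≤ Real.exp (Real.log (ε / 3)) :=
      Real.exp_le_exp.mpr (by linarith)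
    rwa [Real.exp_log (by positivity)] at h4
  obtain ⟨N0, hN0⟩ : ∃ N0 : ℕ, 3 * ((P.totient : ℝ) + 2) / ε < N0 := exists_nat_gt _
  refine ⟨F, hFp, max N0 1, fun N hN => ?_⟩
  have hNN0 : N0 ≤ N := le_trans (le_max_left _ _) hN
  have hN1 : 1 ≤ N := le_trans (le_max_right _ _) hN
  have hNr : (0:ℝ) < N := by exact_mod_cast hN1
  have hcard : (((Finset.range N).filter (fun n => ∀ p ∈ F, ¬ p ∣ n)).card : ℝ) ≤
      P.totient * ((N:ℝ) / P + 1) + 1 := by
    have h1 : (Finset.range N).filter (fun n => ∀ p ∈ F, ¬ p ∣ n) ⊆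
        insert 0 ((Finset.Ico 0 (0 + N)).filter (P.Coprime)) := by
      intro n hn
      rw [Finset.mem_filter, Finset.mem_range] at hn
      rw [Finset.mem_insert, Finset.mem_filter, Finset.mem_Ico]
      right
      refine ⟨⟨Nat.zero_le _, by omega⟩, ?_⟩
      rw [hP]
      apply Nat.Coprime.prod_left
      intro p hp
      exact (Nat.Prime.coprime_iff_not_dvd (hFp p hp)).mpr (hn.2 p hp)
    have h2 := Finset.card_le_card h1
    have h3 := Finset.card_insert_le 0 ((Finset.Ico 0 (0 + N)).filter (P.Coprime))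
    have h4 : ((Finset.Ico 0 (0 + N)).filter (P.Coprime)).card ≤ P.totient * (N / P + 1) :=
      Nat.Ico_filter_coprime_le (a := P) 0 N hPpos.ne'
    have h5 : ((Finset.range N).filter (fun n => ∀ p ∈ F, ¬ p ∣ n)).card ≤
        P.totient * (N / P + 1) + 1 := by omega
    have h6 : (((Finset.range N).filter (fun n => ∀ p ∈ F, ¬ p ∣ n)).card : ℝ) ≤
        ((P.totient * (N / P + 1) + 1 : ℕ) : ℝ) := by exact_mod_cast h5
    push_cast at h6
    have h7 : ((N / P : ℕ) : ℝ) ≤ (N:ℝ) / P := Nat.cast_div_le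
    have h8 : (P.totient : ℝ) * (((N / P : ℕ) : ℝ) + 1) ≤ P.totient * ((N:ℝ) / P + 1) :=
      mul_le_mul_of_nonneg_left (by linarith) (Nat.cast_nonneg _)
    linarith
  have hPr : (0:ℝ) < P := by exact_mod_cast hPpos
  have h9 : (P.totient : ℝ) * ((N:ℝ) / P) ≤ (ε / 3) * N := by
    have : (P.totient : ℝ) * ((N:ℝ) / P) = (P.totient / P) * N := by ring
    rw [this]
    apply mul_le_mul_of_nonneg_right _ hNr.le
    rw [div_le_iff₀ hPr]; linarith
  have h10 : 3 * ((P.totient : ℝ) + 2) < ε * N := by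
    rw [div_lt_iff₀ hε] at hN0
    have : (N0:ℝ) ≤ N := by exact_mod_cast hNN0
    nlinarith
  have h11 : (P.totient : ℝ) * ((N:ℝ) / P + 1) + 1 =
      (P.totient : ℝ) * ((N:ℝ) / P) + P.totient + 1 := by ring
  rw [h11] at hcard
  linarith

/-- Cyclic multiples of a prime have density zero. -/
theorem multiples {p : ℕ} (hp : p.Prime) [DecidablePred (· ∈ {n : ℕ | IsCyclicNumber n ∧ p ∣ n})] :
    Tendsto (fun N : ℕ =>
      (((Finset.range N).filter (· ∈ {n : ℕ | IsCyclicNumber n ∧ p ∣ n})).card : ℝ) / N)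
      atTop (𝓝 0) := by
  haveI : NeZero p := ⟨hp.ne_zero⟩
  refine H6.density_zero {q : ℕ | q.Prime ∧ (q : ZMod p) = 1} (fun q hq => hq.1)
    (H6.not_summable_inv_prime_mod isUnit_one) {n : ℕ | IsCyclicNumber n ∧ p ∣ n} ?_
  rintro n ⟨hn, hpn⟩ hn0 q ⟨hq, hq1⟩ hqn
  have h1 : p ∣ q - 1 := by
    rw [← ZMod.natCast_eq_zero_iff, Nat.cast_sub hq.one_le, hq1]
    simp
  have h2 : q - 1 ∣ Nat.totient n := by
    rw [← Nat.totient_prime hq]
    exact Nat.totient_dvd_of_dvd hqn
  have h3 : p ∣ Nat.gcd n (Nat.totient n) := Nat.dvd_gcd hpn (h1.trans h2)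
  rw [hn.2] at h3
  have := hp.two_le
  have := Nat.le_of_dvd one_pos h3
  omega

open Classical in
/-- number of cyclic numbers below `N` -/
noncomputable def cc (N : ℕ) : ℕ := Nat.count IsCyclicNumber N

open Classical in
theorem cc_eq (N : ℕ) : cc N = ((Finset.range N).filter IsCyclicNumber).card := by
  unfold cc
  exact Nat.count_eq_card_filter_range _ _

theorem cc_c {n : ℕ} (_hn : 1 ≤ n) : cc (c n) = n - 1 := by
  classical
  unfold cc c
  exact Nat.count_nth_of_infinite infinite_cyclic _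

theorem c_lt_iff {n N : ℕ} (hn : 1 ≤ n) : c n < N ↔ n ≤ cc N := by
  classical
  unfold c cc
  have h : n - 1 < Nat.count IsCyclicNumber N ↔ Nat.nth IsCyclicNumber (n - 1) < N :=
    Nat.lt_nth_iff_count_lt (p := IsCyclicNumber) infinite_cyclic
  rw [← h]
  omega

theorem dens0 : Tendsto (fun N : ℕ => (cc N : ℝ) / N) atTop (𝓝 0) := by
  classical
  rw [Metric.tendsto_atTop]
  intro ε hε
  obtain ⟨F, hF, N0, hN0⟩ := rough (ε := ε / 4) (by positivity)
  have h1 : Tendsto (fun N : ℕ => ∑ p ∈ F,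
      (((Finset.range N).filter (· ∈ {n : ℕ | IsCyclicNumber n ∧ p ∣ n})).card : ℝ) / N) atTop
      (𝓝 (∑ _p ∈ F, (0 : ℝ))) := tendsto_finsetSum _ (fun p hp => multiples (hF p hp))
  rw [Finset.sum_const_zero] at h1
  obtain ⟨N1, hN1⟩ := (h1.eventually (gt_mem_nhds (show (0:ℝ) < ε / 4 by positivity))).exists_forall_of_atTop
  refine ⟨max (max N0 N1) 1, fun N hN => ?_⟩
  have a0 : N0 ≤ N := (le_max_left _ _).trans ((le_max_left _ _).trans hN)
  have a1 : N1 ≤ N := (le_max_right _ _).trans ((le_max_left _ _).trans hN)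
  have a2 : 1 ≤ N := (le_max_right _ _).trans hN
  have hNr : (0:ℝ) < N := by exact_mod_cast a2
  rw [Real.dist_eq, sub_zero, abs_of_nonneg (by positivity)]
  have h2 := hN0 N a0
  have h3 := hN1 N a1
  have h4 : (Finset.range N).filter IsCyclicNumber ⊆
      (F.biUnion fun p => (Finset.range N).filter (· ∈ {n : ℕ | IsCyclicNumber n ∧ p ∣ n})) ∪
        (Finset.range N).filter (fun n => ∀ p ∈ F, ¬ p ∣ n) := by
    intro n hn
    rw [Finset.mem_filter] at hn
    rw [Finset.mem_union]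
    by_cases h : ∀ p ∈ F, ¬ p ∣ n
    · right
      exact Finset.mem_filter.2 ⟨hn.1, h⟩
    · left
      push Not at h
      obtain ⟨p, hp, hpn⟩ := h
      exact Finset.mem_biUnion.2 ⟨p, hp, Finset.mem_filter.2 ⟨hn.1, hn.2, hpn⟩⟩
  have h5 : (cc N : ℝ) ≤ ∑ p ∈ F,
      (((Finset.range N).filter (· ∈ {n : ℕ | IsCyclicNumber n ∧ p ∣ n})).card : ℝ) +
      (((Finset.range N).filter (fun n => ∀ p ∈ F, ¬ p ∣ n)).card : ℝ) := by
    rw [cc_eq]
    have h6 := (Finset.card_le_card h4).trans (Finset.card_union_le _ _)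
    have h7 := h6.trans (Nat.add_le_add_right Finset.card_biUnion_le _)
    exact_mod_cast h7
  have h6 : (∑ p ∈ F,
      (((Finset.range N).filter (· ∈ {n : ℕ | IsCyclicNumber n ∧ p ∣ n})).card : ℝ)) / N < ε / 4 := by
    rw [Finset.sum_div]
    exact h3
  have h7 : (cc N : ℝ) / N ≤ (∑ p ∈ F,
      (((Finset.range N).filter (· ∈ {n : ℕ | IsCyclicNumber n ∧ p ∣ n})).card : ℝ)) / N + ε / 4 := by
    rw [div_le_iff₀ hNr, add_mul, div_mul_cancel₀ _ hNr.ne']
    linarith
  linarith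

theorem sparse {ε : ℝ} (hε : 0 < ε) : ∃ N1 : ℕ, ∀ n : ℕ, 1 ≤ n → N1 ≤ c n → (n : ℝ) - 1 ≤ ε * c n := by
  obtain ⟨N1, hN1⟩ := (dens0.eventually (gt_mem_nhds hε)).exists_forall_of_atTop
  refine ⟨max N1 1, fun n hn hc => ?_⟩
  have h1 := hN1 (c n) ((le_max_left _ _).trans hc)
  have h2 : 1 ≤ c n := (le_max_right _ _).trans hc
  have h3 : (0:ℝ) < c n := by exact_mod_cast h2
  rw [div_lt_iff₀ h3, cc_c hn, Nat.cast_sub hn] at h1
  push_cast at h1
  exact h1.le

/-- the violations with `c n ≤ x` are `o(x / log x)`, for every factor `lam`. -/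
theorem tail {lam η : ℝ} (hl : 0 < lam) (hη : 0 < η) : ∃ x0 : ℕ, ∀ x : ℕ, x0 ≤ x →
    (({n : ℕ | 2 ≤ n ∧ c n ≤ x ∧
      lam * log (c n) ≤ ((n : ℝ) - 1) * (log (c (n + 1)) - log (c n))}.ncard : ℕ) : ℝ) ≤
      η * x / log x := by
  classical
  set ε : ℝ := η * lam / 8 with hε
  have hε0 : 0 < ε := by positivity
  obtain ⟨N1, hN1⟩ := sparse hε0
  -- x large: √x ≥ N1 and √x + 1 ≤ (η/2) x / log x
  have hlim : Tendsto (fun x : ℕ => (log (x:ℝ)) / √(x:ℝ)) atTop (𝓝 0) := by
    have h1 := (isLittleO_log_rpow_atTop (show (0:ℝ) < 1 / 2 by norm_num)).tendsto_div_nhds_zero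
    have h2 := h1.comp tendsto_natCast_atTop_atTop
    refine h2.congr fun x => ?_
    simp only [Function.comp]
    rw [Real.sqrt_eq_rpow]
  obtain ⟨X1, hX1⟩ := (hlim.eventually (gt_mem_nhds (show (0:ℝ) < η / 4 by positivity))).exists_forall_of_atTop
  refine ⟨max (max X1 (N1 ^ 2)) 9, fun x hx => ?_⟩
  have b0 : X1 ≤ x := (le_max_left _ _).trans ((le_max_left _ _).trans hx)
  have b1 : N1 ^ 2 ≤ x := (le_max_right _ _).trans ((le_max_left _ _).trans hx)
  have b2 : 9 ≤ x := (le_max_right _ _).trans hx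
  have hx9 : (9:ℝ) ≤ x := by exact_mod_cast b2
  have hx0 : (0:ℝ) < x := by linarith
  have hlog : 0 < log (x:ℝ) := log_pos (by linarith)
  have hs3 : 3 ≤ √(x:ℝ) := by
    rw [show (3:ℝ) = √9 by rw [show (9:ℝ) = 3 ^ 2 by norm_num, Real.sqrt_sq (by norm_num)]]
    exact Real.sqrt_le_sqrt hx9
  have hss : √(x:ℝ) * √(x:ℝ) = x := mul_self_sqrt hx0.le
  have hX := hX1 x b0
  rw [div_lt_iff₀ (by linarith)] at hX
  set s : ℝ := √(x:ℝ) with hs
  set T : ℕ := cc (x + 1) with hT
  have hTiff : ∀ n : ℕ, 1 ≤ n → (c n ≤ x ↔ n ≤ T) := by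
    intro n hn
    rw [hT, ← c_lt_iff hn]
    omega
  set F : Finset ℕ := (Finset.Icc 2 T).filter
    (fun n => lam * log (c n) ≤ ((n : ℝ) - 1) * (log (c (n + 1)) - log (c n))) with hF
  have hset : {n : ℕ | 2 ≤ n ∧ c n ≤ x ∧
      lam * log (c n) ≤ ((n : ℝ) - 1) * (log (c (n + 1)) - log (c n))} = (F : Set ℕ) := by
    ext n
    rw [hF, Finset.coe_filter]
    constructor
    · rintro ⟨h1, h2, h3⟩
      exact ⟨Finset.mem_Icc.2 ⟨h1, (hTiff n (by omega)).1 h2⟩, h3⟩
    · rintro ⟨h1, h3⟩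
      rw [Finset.mem_Icc] at h1
      exact ⟨h1.1, (hTiff n (by omega)).2 h1.2, h3⟩
  rw [hset, Set.ncard_coe_finset]
  set G : Finset ℕ := F.filter (fun n => s < c n ∧ n < T) with hG
  have hsplit : (F.card : ℝ) ≤ s + 1 + G.card := by
    have h2 : F ⊆ (Finset.Icc 1 ⌊s⌋₊ ∪ {T}) ∪ G := by
      intro n hn
      have hn' := hn
      rw [hF, Finset.mem_filter, Finset.mem_Icc] at hn
      rw [Finset.mem_union, Finset.mem_union, Finset.mem_singleton, Finset.mem_Icc]
      by_cases hnT : n = T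
      · left; right; exact hnT
      by_cases h : s < c n
      · right
        exact Finset.mem_filter.2 ⟨hn', h, lt_of_le_of_ne hn.1.2 hnT⟩
      · left; left
        refine ⟨by omega, Nat.le_floor ?_⟩
        push Not at h
        refine le_trans ?_ h
        exact_mod_cast le_c (n := n) (by omega)
    have h3 := (Finset.card_le_card h2).trans ((Finset.card_union_le _ _).trans
      (Nat.add_le_add_right (Finset.card_union_le _ _) _))
    rw [Nat.card_Icc, Nat.add_sub_cancel, Finset.card_singleton] at h3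
    have h4 : (F.card : ℝ) ≤ (⌊s⌋₊ : ℝ) + 1 + G.card := by exact_mod_cast h3
    have h5 : (⌊s⌋₊ : ℝ) ≤ s := Nat.floor_le (by linarith)
    linarith
  -- every element of G gives a long gap
  have hgap : ∀ n ∈ G, lam / (2 * ε) * log x ≤ (c (n + 1) : ℝ) - c n := by
    intro n hn
    rw [hG, Finset.mem_filter, hF, Finset.mem_filter, Finset.mem_Icc] at hn
    obtain ⟨⟨⟨h2, h3⟩, h4⟩, h5, h6⟩ := hn
    have hcN : N1 ≤ c n := by
      have : (N1 : ℝ) ≤ s := by
        rw [hs]
        apply Real.le_sqrt_of_sq_le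
        exact_mod_cast b1
      have : (N1 : ℝ) ≤ c n := by linarith
      exact_mod_cast this
    have h7 := hN1 n (by omega) hcN
    have hcpos : (0:ℝ) < c n := by linarith
    have hcle : (c n : ℝ) ≤ c (n + 1) := by exact_mod_cast (c_lt (n := n) (by omega)).le
    have hlogc : log x / 2 ≤ log (c n) := by
      rw [← Real.log_sqrt hx0.le]
      exact log_le_log (by linarith) h5.le
    have hdiff : log (c (n + 1) : ℝ) - log (c n) ≤ ((c (n + 1) : ℝ) - c n) / c n := by
      rw [← Real.log_div (by linarith) hcpos.ne']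
      refine (Real.log_le_sub_one_of_pos (div_pos (by linarith) hcpos)).trans (le_of_eq ?_)
      field_simp
    have hdiff0 : 0 ≤ ((c (n + 1) : ℝ) - c n) / c n := div_nonneg (by linarith) hcpos.le
    have hn1 : (0:ℝ) ≤ (n:ℝ) - 1 := by
      have : (2:ℝ) ≤ n := by exact_mod_cast h2
      linarith
    have h8 : lam * (log x / 2) ≤ ε * ((c (n + 1) : ℝ) - c n) := by
      calc lam * (log x / 2) ≤ lam * log (c n) := mul_le_mul_of_nonneg_left hlogc hl.le
        _ ≤ ((n:ℝ) - 1) * (log (c (n + 1)) - log (c n)) := h4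
        _ ≤ ((n:ℝ) - 1) * (((c (n + 1) : ℝ) - c n) / c n) := mul_le_mul_of_nonneg_left hdiff hn1
        _ ≤ (ε * c n) * (((c (n + 1) : ℝ) - c n) / c n) := mul_le_mul_of_nonneg_right h7 hdiff0
        _ = ε * ((c (n + 1) : ℝ) - c n) := by field_simp
    have h9 : lam / (2 * ε) * log x = lam * (log x / 2) / ε := by field_simp
    rw [h9, div_le_iff₀ hε0]
    linarith
  have hteleG : (G.card : ℝ) * (lam / (2 * ε) * log x) ≤ x := by
    rcases Finset.eq_empty_or_nonempty G with hGe | hGn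
    · rw [hGe]; simp
    have hT1 : 1 ≤ T := by
      obtain ⟨n, hn⟩ := hGn
      rw [hG, Finset.mem_filter] at hn
      omega
    have h2 : ∀ K : ℕ, 1 ≤ K → ∑ n ∈ Finset.Ico 1 K, ((c (n + 1) : ℝ) - c n) = c K - c 1 := by
      intro K hK
      induction K, hK using Nat.le_induction with
      | base => simp
      | succ K hK ih =>
        rw [Finset.sum_Ico_succ_top hK, ih]
        ring
    have h3 : G ⊆ Finset.Ico 1 T := by
      intro n hn
      rw [hG, Finset.mem_filter, hF, Finset.mem_filter, Finset.mem_Icc] at hn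
      rw [Finset.mem_Ico]
      omega
    calc (G.card : ℝ) * (lam / (2 * ε) * log x) = ∑ n ∈ G, (lam / (2 * ε) * log x) := by
          rw [Finset.sum_const, nsmul_eq_mul]
      _ ≤ ∑ n ∈ G, ((c (n + 1) : ℝ) - c n) := Finset.sum_le_sum hgap
      _ ≤ ∑ n ∈ Finset.Ico 1 T, ((c (n + 1) : ℝ) - c n) := by
          apply Finset.sum_le_sum_of_subset_of_nonneg h3
          intro n hn _
          rw [Finset.mem_Ico] at hn
          have : (c n : ℝ) ≤ c (n + 1) := by exact_mod_cast (c_lt (n := n) hn.1).le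
          linarith
      _ = c T - c 1 := h2 T hT1
      _ ≤ x := by
          have : (c T : ℝ) ≤ x := by exact_mod_cast (hTiff T hT1).2 le_rfl
          have : (0:ℝ) ≤ c 1 := Nat.cast_nonneg _
          linarith
  have hcoef : lam / (2 * ε) = 4 / η := by
    rw [hε]; field_simp; norm_num
  rw [hcoef] at hteleG
  have hGfin : (G.card : ℝ) ≤ η * x / (4 * log x) := by
    rw [le_div_iff₀ (by positivity)]
    have : (G.card : ℝ) * (4 / η * log x) * η ≤ x * η := mul_le_mul_of_nonneg_right hteleG hη.le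
    have e : (G.card : ℝ) * (4 / η * log x) * η = G.card * (4 * log x) := by field_simp
    linarith
  have hsfin : s + 1 ≤ η * x / (2 * log x) := by
    rw [le_div_iff₀ (by positivity)]
    -- log x < η/4 * s, s*s = x
    nlinarith
  have : η * x / (4 * log x) + η * x / (2 * log x) ≤ η * x / log x := by
    rw [div_add_div _ _ (by positivity) (by positivity), div_le_div_iff₀ (by positivity) hlog]
    have : 0 ≤ η * x * log x * log x := by positivity
    nlinarith
  linarith

end Pool.Agent.H69.CY
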