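import Mathlib

/-!
Cyclic numbers (MP_a37e4a_nt): `c n` is the `n`-th cyclic number, `n ≤ c n ≤ 14 n log n`.
-/

namespace Pool.Agent.H69.CY

open Real

/-- `m` is a cyclic number: `m > 0` and `gcd (m, φ(m)) = 1`. -/
def IsCyclicNumber (m : ℕ) : Prop := 0 < m ∧ Nat.gcd m (Nat.totient m) = 1

/-- `c n` is the `n`-th cyclic number, `n ≥ 1`: `c 1 = 1`, `c 2 = 2`, `c 3 = 3`, `c 4 = 5`, ... -/
noncomputable def c (n : ℕ) : ℕ := Nat.nth IsCyclicNumber (n - 1)

theorem prime_cyclic {p : ℕ} (hp : p.Prime) : IsCyclicNumber p := by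
  refine ⟨hp.pos, ?_⟩
  rw [Nat.totient_prime hp]
  exact Nat.coprime_of_lt_prime (by have := hp.two_le; omega) (by have := hp.two_le; omega) hp

theorem infinite_cyclic : {m | IsCyclicNumber m}.Infinite :=
  Nat.infinite_setOfPred_prime.mono (fun _ hp => prime_cyclic hp)

theorem nth_mono : StrictMono (Nat.nth IsCyclicNumber) := Nat.nth_strictMono infinite_cyclic

theorem le_nth (k : ℕ) : k + 1 ≤ Nat.nth IsCyclicNumber k := by
  induction k with
  | zero => exact (Nat.nth_mem_of_infinite infinite_cyclic 0).1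
  | succ k ih =>
    have h : Nat.nth IsCyclicNumber k < Nat.nth IsCyclicNumber (k + 1) := nth_mono (by omega)
    omega

theorem le_c {n : ℕ} (hn : 1 ≤ n) : n ≤ c n := by
  have := le_nth (n - 1)
  unfold c
  omega

theorem c_lt {n : ℕ} (hn : 1 ≤ n) : c n < c (n + 1) := by
  unfold c
  exact nth_mono (by omega)

theorem primes_le {n : ℕ} (hn : 1 ≤ n) : Nat.primeCounting (c n - 1) ≤ n - 1 := by
  classical
  have h1 : Nat.count IsCyclicNumber (c n) = n - 1 := by
    unfold c
    exact Nat.count_nth_of_infinite infinite_cyclic _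
  have h2 : Nat.count Nat.Prime (c n) ≤ Nat.count IsCyclicNumber (c n) := by
    rw [Nat.count_eq_card_filter_range, Nat.count_eq_card_filter_range]
    apply Finset.card_le_card
    intro x hx
    rw [Finset.mem_filter] at hx ⊢
    exact ⟨hx.1, prime_cyclic hx.2⟩
  have h3 : Nat.primeCounting (c n - 1) = Nat.count Nat.Prime (c n) := by
    rw [Nat.primeCounting_sub_one]
    rfl
  omega

theorem c_le {n : ℕ} (hn : 3 ≤ n) : (c n : ℝ) ≤ 14 * n * log n := by
  have hn0 : (3 : ℝ) ≤ n := by exact_mod_cast hn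
  have hcn : n ≤ c n := le_c (by omega)
  have hc3 : (3 : ℝ) ≤ c n := by exact_mod_cast hn.trans hcn
  have hl2 : (0.69 : ℝ) < log 2 := by have := Real.log_two_gt_d9; linarith
  have hl2' : log 2 < (0.7 : ℝ) := by have := Real.log_two_lt_d9; linarith
  set x : ℝ := (c n : ℝ) with hx
  have hm : ((c n - 1 : ℕ) : ℝ) = x - 1 := by
    rw [Nat.cast_sub (by omega)]; simp [hx]
  have h1 := Chebyshev.psi_ge (c n - 1)
  have h2 := Chebyshev.psi_le_primeCounting_mul_log (c n - 1)
  have h3 : ((Nat.primeCounting (c n - 1) : ℕ) : ℝ) ≤ n - 1 := by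
    have := primes_le (n := n) (by omega)
    have h4 : ((Nat.primeCounting (c n - 1) : ℕ) : ℝ) ≤ ((n - 1 : ℕ) : ℝ) := by exact_mod_cast this
    rw [Nat.cast_sub (by omega)] at h4
    simpa using h4
  rw [hm] at h1 h2
  have hlogx : 0 < log x := log_pos (by linarith)
  have hlog1 : log (x - 1) ≤ log x := log_le_log (by linarith) (by linarith)
  have hlog0 : 0 ≤ log (x - 1) := log_nonneg (by linarith)
  have h5 : (x - 1) * log 2 ≤ n * log x := by
    have e1 : log (x - 1 + 1) = log x := by ring_nf
    rw [e1] at h1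
    have e2 : ((Nat.primeCounting (c n - 1) : ℕ) : ℝ) * log (x - 1) ≤ (n - 1) * log x := by
      apply mul_le_mul h3 hlog1 hlog0 (by linarith)
    linarith [h1.trans (h2.trans e2)]
  -- first a crude bound
  have hs : log x ≤ 2 * √x := by
    have e1 : log (√x) ≤ √x - 1 := log_le_sub_one_of_pos (by positivity)
    have e2 : log (√x) = log x / 2 := log_sqrt (by linarith)
    rw [e2] at e1
    linarith
  have hsx : √x * √x = x := mul_self_sqrt (by linarith)
  have hs1 : 1 ≤ √x := by
    rw [show (1 : ℝ) = √1 by simp]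
    exact sqrt_le_sqrt (by linarith)
  have h6 : √x ≤ 8 * n := by
    by_contra hcon
    push Not at hcon
    nlinarith
  have hln1 : (1 : ℝ) ≤ log n := by
    have f1 : log (exp 1) ≤ log n := log_le_log (by positivity) (by have := Real.exp_one_lt_d9; linarith)
    simpa using f1
  have h7 : log x ≤ 6.2 * log n := by
    have e1 : log (√x) ≤ log (8 * n) := log_le_log (by linarith) h6
    have e2 : log (√x) = log x / 2 := log_sqrt (by linarith)
    have e3 : log (8 * (n : ℝ)) = log 8 + log n := log_mul (by norm_num) (by linarith)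
    have e4 : log (8 : ℝ) = 3 * log 2 := by
      rw [show (8 : ℝ) = 2 ^ 3 by norm_num, log_pow]; norm_num
    rw [e2, e3, e4] at e1
    linarith
  have hln : 0 < log (n : ℝ) := log_pos (by linarith)
  have h8 : (x - 1) * 0.69 ≤ 6.2 * n * log n := by
    have e1 : (x - 1) * 0.69 ≤ (x - 1) * log 2 := by
      apply mul_le_mul_of_nonneg_left hl2.le (by linarith)
    have e2 : n * log x ≤ n * (6.2 * log n) := mul_le_mul_of_nonneg_left h7 (by linarith)
    linarith
  have h9 : (3 : ℝ) ≤ n * log n := by nlinarith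
  nlinarith

/-- `log (c n)` between `log n` and `log n + log log n + log 14`. -/
theorem log_c_le {n : ℕ} (hn : 3 ≤ n) : log (c n) ≤ log n + log (log n) + log 14 := by
  have hn0 : (3 : ℝ) ≤ n := by exact_mod_cast hn
  have h := c_le hn
  have hc : (0 : ℝ) < c n := by
    have : n ≤ c n := le_c (by omega)
    have : 0 < c n := by omega
    exact_mod_cast this
  have hln : 0 < log (n : ℝ) := log_pos (by linarith)
  have h1 := log_le_log hc h
  rw [log_mul (by positivity) hln.ne', log_mul (by norm_num) (by positivity)] at h1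
  linarith

theorem log_le_log_c {n : ℕ} (hn : 1 ≤ n) : log n ≤ log (c n) := by
  apply log_le_log
  · exact_mod_cast hn
  · exact_mod_cast le_c hn

end Pool.Agent.H69.CY
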