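import Pool.Agent.H69.CY.Dens

/-!
# Firoozbakht's inequality for cyclic numbers: few violations, and all indices on the coarse scale
-/

set_option autoImplicit false

namespace Pool.Agent.H69.CY.FewViolations

/-- `m` is a cyclic number: `m > 0` and `gcd (m, φ(m)) = 1`. -/
def IsCyclicNumber (m : ℕ) : Prop := 0 < m ∧ Nat.gcd m (Nat.totient m) = 1

/-- `c n` is the `n`-th cyclic number, `n ≥ 1`: `c 1 = 1`, `c 2 = 2`, `c 3 = 3`, `c 4 = 5`, ... -/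
noncomputable def c (n : ℕ) : ℕ := Nat.nth IsCyclicNumber (n - 1)

theorem result :
    (∀ η : ℝ, 0 < η → ∃ x0 : ℕ, ∀ x : ℕ, x0 ≤ x →
      ({n : ℕ | 2 ≤ n ∧ c n ≤ x ∧
          ¬ ((c (n + 1) : ℝ) ^ (1 / (n : ℝ)) < (c n : ℝ) ^ (1 / ((n : ℝ) - 1)))}.ncard : ℝ) ≤
        η * x / Real.log x) ∧
    (∀ lam η : ℝ, 0 < lam → 0 < η → ∃ x0 : ℕ, ∀ x : ℕ, x0 ≤ x →
      ({n : ℕ | 2 ≤ n ∧ c n ≤ x ∧
          ¬ (((n : ℝ) - 1) * (Real.log (c (n + 1)) - Real.log (c n)) < lam * Real.log (c n))}.ncard : ℝ) ≤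
        η * x / Real.log x) ∧
    (∀ N : ℕ, 3 ≤ N →
      ({n : ℕ | 2 ≤ n ∧ n ≤ N ∧
          ¬ ((c (n + 1) : ℝ) ^ (1 / (n : ℝ)) < (c n : ℝ) ^ (1 / ((n : ℝ) - 1)))}.ncard : ℝ) ≤
        (4 * Real.log (Real.log N) + 10) * N / Real.log N) ∧
    (∀ n m : ℕ, 55 ≤ n → (n : ℝ) + 9 * n * Real.log (Real.log n) / Real.log n ≤ m →
      (c (m + 1) : ℝ) ^ (1 / (m : ℝ)) < (c (n + 1) : ℝ) ^ (1 / (n : ℝ))) := by
  have key : ∀ n : ℕ, 2 ≤ n →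
      (¬ ((c (n + 1) : ℝ) ^ (1 / (n : ℝ)) < (c n : ℝ) ^ (1 / ((n : ℝ) - 1))) ↔
        (1 : ℝ) * Real.log (H69.CY.c n) ≤
          ((n : ℝ) - 1) * (Real.log (H69.CY.c (n + 1)) - Real.log (H69.CY.c n))) := by
    intro n hn
    rw [one_mul, ← not_lt]
    exact not_congr (H69.CY.ineq_iff hn)
  refine ⟨?_, ?_, ?_, ?_⟩
  · intro η hη
    obtain ⟨x0, hx0⟩ := H69.CY.tail (lam := 1) one_pos hη
    refine ⟨x0, fun x hx => le_trans (le_of_eq ?_) (hx0 x hx)⟩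
    congr 2
    ext n
    constructor
    · rintro ⟨h1, h2, h3⟩
      exact ⟨h1, h2, (key n h1).1 h3⟩
    · rintro ⟨h1, h2, h3⟩
      exact ⟨h1, h2, (key n h1).2 h3⟩
  · intro lam η hl hη
    obtain ⟨x0, hx0⟩ := H69.CY.tail hl hη
    refine ⟨x0, fun x hx => le_trans (le_of_eq ?_) (hx0 x hx)⟩
    congr 2
    ext n
    constructor
    · rintro ⟨h1, h2, h3⟩
      exact ⟨h1, h2, not_lt.1 h3⟩
    · rintro ⟨h1, h2, h3⟩
      exact ⟨h1, h2, not_lt.2 h3⟩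
  · intro N hN
    have h := H69.CY.count (lam := 1) one_pos le_rfl hN
    rw [one_mul] at h
    refine le_trans (le_of_eq ?_) h
    congr 2
    ext n
    constructor
    · rintro ⟨h1, h2, h3⟩
      exact ⟨h1, h2, (key n h1).1 h3⟩
    · rintro ⟨h1, h2, h3⟩
      exact ⟨h1, h2, (key n h1).2 h3⟩
  · intro n m hn hm
    exact H69.CY.coarse hn hm

end Pool.Agent.H69.CY.FewViolations
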