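import Pool.Agent.H69.CY.Basic

namespace Pool.Agent.H69.CY

open Real

theorem log_ge_one {x : ℝ} (hx : 3 ≤ x) : 1 ≤ log x := by
  have f1 : log (exp 1) ≤ log x := log_le_log (by positivity) (by have := Real.exp_one_lt_d9; linarith)
  simpa using f1

theorem log_le_half {y : ℝ} (hy : 0 < y) : log y ≤ y / 2 := by
  have h1 : log (y / 2) ≤ y / 2 - 1 := log_le_sub_one_of_pos (by positivity)
  rw [log_div hy.ne' (by norm_num)] at h1
  have h2 := Real.log_two_lt_d9
  linarith

/-- the telescoped sum -/
theorem tele (M N : ℕ) (h : M ≤ N) :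
    ∑ n ∈ Finset.Ioc M N, (log (c (n + 1)) - log (c n)) = log (c (N + 1)) - log (c (M + 1)) := by
  induction N, h using Nat.le_induction with
  | base => simp
  | succ N hN ih =>
    rw [Finset.sum_Ioc_succ_top (by omega), ih]
    ring

/-- the exceptional set -/
def bad (lam : ℝ) (N : ℕ) : Set ℕ :=
  {n : ℕ | 2 ≤ n ∧ n ≤ N ∧ lam * log (c n) ≤ ((n : ℝ) - 1) * (log (c (n + 1)) - log (c n))}

theorem count {lam : ℝ} (h0 : 0 < lam) (h1 : lam ≤ 1) {N : ℕ} (hN : 3 ≤ N) :
    ((bad lam N).ncard : ℝ) ≤ (4 * log (log N) + 10) * N / (lam * log N) := by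
  classical
  have hN3 : (3 : ℝ) ≤ N := by exact_mod_cast hN
  have hN0 : (0 : ℝ) < N := by linarith
  have hL1 : 1 ≤ log (N : ℝ) := log_ge_one hN3
  set L : ℝ := log N with hL
  have hL0 : 0 < L := by linarith
  set M : ℕ := ⌊(N : ℝ) / L⌋₊ with hM
  have hML : (M : ℝ) ≤ N / L := Nat.floor_le (by positivity)
  have hMl : (N : ℝ) / L < M + 1 := Nat.lt_floor_add_one _
  have hMN : M ≤ N := by
    have : (M : ℝ) ≤ N := hML.trans (div_le_self hN0.le hL1)
    exact_mod_cast this
  -- the finite set
  set F : Finset ℕ := (Finset.Icc 2 N).filter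
    (fun n => lam * log (c n) ≤ ((n : ℝ) - 1) * (log (c (n + 1)) - log (c n))) with hF
  have hbad : bad lam N = (F : Set ℕ) := by
    ext n
    simp [bad, hF, and_assoc]
  rw [hbad, Set.ncard_coe_finset]
  set G : Finset ℕ := F.filter (fun n => M < n) with hG
  have hsplit : F.card ≤ M + G.card := by
    have h2 : F ⊆ Finset.Icc 1 M ∪ G := by
      intro n hn
      rw [hF, Finset.mem_filter, Finset.mem_Icc] at hn
      rw [Finset.mem_union]
      by_cases h : M < n
      · right
        rw [hG, Finset.mem_filter, hF, Finset.mem_filter, Finset.mem_Icc]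
        exact ⟨hn, h⟩
      · left
        rw [Finset.mem_Icc]
        omega
    refine (Finset.card_le_card h2).trans ((Finset.card_union_le _ _).trans ?_)
    simp
  -- log (M+1) large
  have hlogM : log (M + 1 : ℝ) ≥ L - log L := by
    have : log ((N : ℝ) / L) ≤ log (M + 1 : ℝ) := log_le_log (by positivity) hMl.le
    rw [log_div hN0.ne' hL0.ne'] at this
    linarith
  have hlogL : log L ≤ L / 2 := log_le_half hL0
  have hlogL0 : 0 ≤ log L := log_nonneg hL1
  -- each element of G contributes
  have hterm : ∀ n ∈ G, lam * L / (2 * N) ≤ log (c (n + 1)) - log (c n) := by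
    intro n hn
    rw [hG, Finset.mem_filter, hF, Finset.mem_filter, Finset.mem_Icc] at hn
    obtain ⟨⟨⟨h2, h3⟩, h4⟩, h5⟩ := hn
    have h6 : log (M + 1 : ℝ) ≤ log (c n) := by
      refine le_trans (log_le_log (by positivity) ?_) (log_le_log_c (n := n) (by omega))
      exact_mod_cast h5
    have h7 : L / 2 ≤ log (c n) := by linarith
    have h8 : 0 ≤ log (c (n + 1)) - log (c n) := by
      have : log (c n : ℝ) ≤ log (c (n + 1) : ℝ) := by
        apply log_le_log
        · have := le_c (n := n) (by omega)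
          have : 0 < c n := by omega
          exact_mod_cast this
        · exact_mod_cast (c_lt (n := n) (by omega)).le
      linarith
    have h9 : lam * (L / 2) ≤ N * (log (c (n + 1)) - log (c n)) := by
      calc lam * (L / 2) ≤ lam * log (c n) := mul_le_mul_of_nonneg_left h7 h0.le
        _ ≤ ((n : ℝ) - 1) * (log (c (n + 1)) - log (c n)) := h4
        _ ≤ N * (log (c (n + 1)) - log (c n)) := by
          apply mul_le_mul_of_nonneg_right _ h8
          have : (n : ℝ) ≤ N := by exact_mod_cast h3
          linarith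
    rw [div_le_iff₀ (by positivity)]
    linarith
  have hsum : (G.card : ℝ) * (lam * L / (2 * N)) ≤ log (c (N + 1)) - log (c (M + 1)) := by
    rw [← tele M N hMN]
    have h2 : G ⊆ Finset.Ioc M N := by
      intro n hn
      rw [hG, Finset.mem_filter, hF, Finset.mem_filter, Finset.mem_Icc] at hn
      rw [Finset.mem_Ioc]
      omega
    calc (G.card : ℝ) * (lam * L / (2 * N)) = ∑ n ∈ G, (lam * L / (2 * N)) := by
          rw [Finset.sum_const, nsmul_eq_mul]
      _ ≤ ∑ n ∈ G, (log (c (n + 1)) - log (c n)) := Finset.sum_le_sum hterm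
      _ ≤ ∑ n ∈ Finset.Ioc M N, (log (c (n + 1)) - log (c n)) := by
          apply Finset.sum_le_sum_of_subset_of_nonneg h2
          intro n hn _
          rw [Finset.mem_Ioc] at hn
          have : log (c n : ℝ) ≤ log (c (n + 1) : ℝ) := by
            apply log_le_log
            · have := le_c (n := n) (by omega)
              have : 0 < c n := by omega
              exact_mod_cast this
            · exact_mod_cast (c_lt (n := n) (by omega)).le
          linarith
  -- upper bound of the right side
  have hup : log (c (N + 1)) - log (c (M + 1)) ≤ 2 * log L + 4.2 := by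
    have h2 := log_c_le (n := N + 1) (by omega)
    have h3 := log_le_log_c (n := M + 1) (by omega)
    push_cast at h2 h3
    have h4 : log ((N : ℝ) + 1) ≤ L + log 2 := by
      rw [hL, ← log_mul hN0.ne' (by norm_num)]
      exact log_le_log (by positivity) (by linarith)
    have h5 : log (log ((N : ℝ) + 1)) ≤ log L + log 2 := by
      rw [← log_mul hL0.ne' (by norm_num)]
      apply log_le_log
      · exact log_pos (by linarith)
      · have := Real.log_two_lt_d9
        linarith
    have h6 : log (14 : ℝ) ≤ 4.2 - 2 * 0.7 := by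
      have e1 : log (14 : ℝ) ≤ log (2 ^ 4 : ℝ) := log_le_log (by norm_num) (by norm_num)
      rw [log_pow] at e1
      have := Real.log_two_lt_d9
      push_cast at e1
      linarith
    have := Real.log_two_lt_d9
    linarith
  have hfin : (G.card : ℝ) ≤ (2 * log L + 4.2) * (2 * N) / (lam * L) := by
    rw [le_div_iff₀ (by positivity)]
    have h2 := hsum.trans hup
    have h3 : (G.card : ℝ) * (lam * L / (2 * N)) * (2 * N) ≤ (2 * log L + 4.2) * (2 * N) :=
      mul_le_mul_of_nonneg_right h2 (by positivity)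
    have h4 : (G.card : ℝ) * (lam * L / (2 * N)) * (2 * N) = G.card * (lam * L) := by
      field_simp
    linarith
  have hMfin : (M : ℝ) ≤ N / (lam * L) := by
    refine hML.trans ?_
    apply div_le_div_of_nonneg_left hN0.le (by positivity)
    nlinarith
  have hcast : (F.card : ℝ) ≤ M + G.card := by exact_mod_cast hsplit
  have hsumfin : (M : ℝ) + G.card ≤ (N + (2 * log L + 4.2) * (2 * N)) / (lam * L) := by
    rw [add_div]
    exact add_le_add hMfin hfin
  refine (hcast.trans hsumfin).trans ?_
  apply div_le_div_of_nonneg_right _ (by positivity)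
  nlinarith

/-- the inequality of Q1 at `n` in logarithmic form. -/
theorem ineq_iff {n : ℕ} (hn : 2 ≤ n) :
    (c (n + 1) : ℝ) ^ (1 / (n : ℝ)) < (c n : ℝ) ^ (1 / ((n : ℝ) - 1)) ↔
      ((n : ℝ) - 1) * (log (c (n + 1)) - log (c n)) < log (c n) := by
  have hn2 : (2 : ℝ) ≤ n := by exact_mod_cast hn
  have hpos : ∀ k : ℕ, 1 ≤ k → (0 : ℝ) < c k := by
    intro k hk
    have := le_c hk
    have : 0 < c k := by omega
    exact_mod_cast this
  have h1 := hpos n (by omega)
  have h2 := hpos (n + 1) (by omega)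
  rw [← log_lt_log_iff (rpow_pos_of_pos h2 _) (rpow_pos_of_pos h1 _), log_rpow h2, log_rpow h1,
    one_div_mul_eq_div, one_div_mul_eq_div, div_lt_div_iff₀ (by linarith) (by linarith)]
  constructor <;> intro h <;> nlinarith

theorem coarse {n m : ℕ} (hn : 55 ≤ n)
    (hm : (n : ℝ) + 9 * n * log (log n) / log n ≤ m) :
    (c (m + 1) : ℝ) ^ (1 / (m : ℝ)) < (c (n + 1) : ℝ) ^ (1 / (n : ℝ)) := by
  have hn55 : (55 : ℝ) ≤ n := by exact_mod_cast hn
  have hn0 : (0 : ℝ) < n := by linarith
  have hl4 : 4 ≤ log (n : ℝ) := by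
    rw [le_log_iff_exp_le hn0]
    have h1 := Real.exp_one_lt_d9
    have h2 : exp 4 = (exp 1) ^ 4 := by rw [← exp_nat_mul]; norm_num
    rw [h2]
    have h3 : (exp 1) ^ 4 ≤ (2.7182818286 : ℝ) ^ 4 := pow_le_pow_left₀ (exp_pos 1).le h1.le 4
    norm_num at h3 ⊢
    linarith
  set L1 : ℝ := log n with hL1
  have hl0 : 0 < L1 := by linarith
  have hl2 : 1 ≤ log L1 := log_ge_one (by linarith)
  set L2 : ℝ := log L1 with hL2
  have hq : 0 ≤ 9 * (n : ℝ) * L2 / L1 := by positivity
  have hmn : (n : ℝ) ≤ m := by linarith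
  have hmn' : n ≤ m := by exact_mod_cast hmn
  have hm0 : (0 : ℝ) < m := by linarith
  have hpos : ∀ k : ℕ, 1 ≤ k → (0 : ℝ) < c k := by
    intro k hk
    have := le_c hk
    have : 0 < c k := by omega
    exact_mod_cast this
  have h1 := hpos (n + 1) (by omega)
  have h2 := hpos (m + 1) (by omega)
  rw [← log_lt_log_iff (rpow_pos_of_pos h2 _) (rpow_pos_of_pos h1 _), log_rpow h2, log_rpow h1,
    one_div_mul_eq_div, one_div_mul_eq_div, div_lt_div_iff₀ hm0 hn0]
  have hA := log_c_le (n := m + 1) (by omega)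
  have hB := log_le_log_c (n := n + 1) (by omega)
  push_cast at hA hB
  set t : ℝ := m / n with ht
  have htn : (m : ℝ) = t * n := by rw [ht]; field_simp
  have ht1 : 1 ≤ t := by rw [ht, le_div_iff₀ hn0]; linarith
  set l : ℝ := log ((n : ℝ) + 1) with hl
  have hll : L1 ≤ l := log_le_log hn0 (by linarith)
  have hll2 : l ≤ 2 * L1 := by
    have e1 : l ≤ log (2 * n) := log_le_log (by positivity) (by linarith)
    rw [log_mul (by norm_num) hn0.ne'] at e1
    have := Real.log_two_lt_d9
    linarith
  have hlt : log t ≤ t - 1 := log_le_sub_one_of_pos (by linarith)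
  have hlt0 : 0 ≤ log t := log_nonneg ht1
  have e1 : log ((m : ℝ) + 1) ≤ l + log t := by
    rw [hl, ← log_mul (by positivity) (by positivity)]
    apply log_le_log (by positivity)
    rw [htn]
    nlinarith
  have e2 : log (log ((m : ℝ) + 1)) ≤ log l + log t := by
    have hl' : 0 < l := by linarith
    rw [← log_mul hl'.ne' (by positivity)]
    apply log_le_log (log_pos (by linarith))
    refine e1.trans ?_
    have : log t ≤ (t - 1) * l := by nlinarith
    nlinarith
  have e3 : log l ≤ L2 + log 2 := by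
    rw [hL2, ← log_mul hl0.ne' (by norm_num)]
    exact log_le_log (by linarith) (by linarith)
  have e4 : log (14 : ℝ) ≤ 2.8 := by
    have e1 : log (14 : ℝ) ≤ log (2 ^ 4 : ℝ) := log_le_log (by norm_num) (by norm_num)
    rw [log_pow] at e1
    have := Real.log_two_lt_d9
    push_cast at e1
    linarith
  have e5 : 9 * L2 / L1 ≤ t - 1 := by
    have : (n : ℝ) * (9 * L2 / L1) ≤ n * (t - 1) := by
      have f1 : (n : ℝ) * (9 * L2 / L1) = 9 * n * L2 / L1 := by ring
      rw [f1]
      nlinarith
    exact le_of_mul_le_mul_left this hn0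
  have e6 : 9 * L2 ≤ (t - 1) * l := by
    have : 9 * L2 / L1 * L1 ≤ (t - 1) * l := mul_le_mul e5 hll hl0.le (by linarith)
    rwa [div_mul_cancel₀ _ hl0.ne'] at this
  have e7 : log (c (m + 1) : ℝ) < t * l := by
    have g1 : log (c (m + 1) : ℝ) ≤ l + log l + 2 * (t - 1) + log 14 := by linarith
    have g2 : 2 * (t - 1) ≤ (t - 1) * l / 2 := by nlinarith
    have := Real.log_two_lt_d9
    nlinarith
  have e8 : t * l ≤ t * log (c (n + 1) : ℝ) := mul_le_mul_of_nonneg_left hB (by linarith)
  calc log (c (m + 1) : ℝ) * n < t * l * n := mul_lt_mul_of_pos_right e7 hn0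
    _ ≤ t * log (c (n + 1) : ℝ) * n := mul_le_mul_of_nonneg_right e8 hn0.le
    _ = log (c (n + 1) : ℝ) * m := by rw [htn]; ring

end Pool.Agent.H69.CY
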